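import Pool.Agent.TetVol.Parab

/-!
The parabolic families: in each of them the base triangle is fixed and the three lateral edges are quadratic
polynomials.
-/

set_option autoImplicit false

namespace Pool.Agent.TetVol

/-- the family with base triangle `16, 8, 12` and lateral edges `n, n + (-4), n + (-7)`,
`n = 2 * j ^ 2 + 12` -/
theorem fam_20_0 (j : ℕ) (hj : 0 < j) : IsIntTetVol (3 * ((20 * j : ℕ) : ℝ)) := by
  refine parab (20 * j) 16 8 12 (2 * j ^ 2 + 12) (2 * j ^ 2 + 8) (2 * j ^ 2 + 5)
    15 4 1 (-4) (-7) 24 12 (108) (by norm_num) (by norm_num) (by omega) (by norm_num) (by norm_num) (by norm_num)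
    (by positivity) (by positivity) (by positivity) (by norm_num) (by norm_num) (by norm_num) (by norm_num) (by norm_num)
    (by norm_num) ?_ ?_ ?_
  · push_cast; ring
  · push_cast; ring
  · push_cast; ring

/-- the family with base triangle `16, 6, 14` and lateral edges `n, n + (8), n + (-3)`,
`n = 10 * j ^ 2 + 2 * j + 5` -/
theorem fam_40_4 (j : ℕ) : IsIntTetVol (3 * ((40 * j + 4 : ℕ) : ℝ)) := by
  refine parab (40 * j + 4) 16 6 14 (10 * j ^ 2 + 2 * j + 5) (10 * j ^ 2 + 2 * j + 13) (10 * j ^ 2 + 2 * j + 2)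
    3 8 3 (8) (-3) 48 120 (264) (by norm_num) (by norm_num) (by omega) (by norm_num) (by norm_num) (by norm_num)
    (by positivity) (by positivity) (by positivity) (by norm_num) (by norm_num) (by norm_num) (by norm_num) (by norm_num)
    (by norm_num) ?_ ?_ ?_
  · push_cast; ring
  · push_cast; ring
  · push_cast; ring

/-- the family with base triangle `16, 6, 14` and lateral edges `n, n + (8), n + (-3)`,
`n = 10 * j ^ 2 + 18 * j + 13` -/
theorem fam_40_36 (j : ℕ) : IsIntTetVol (3 * ((40 * j + 36 : ℕ) : ℝ)) := by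
  refine parab (40 * j + 36) 16 6 14 (10 * j ^ 2 + 18 * j + 13) (10 * j ^ 2 + 18 * j + 21) (10 * j ^ 2 + 18 * j + 10)
    3 8 3 (8) (-3) 48 120 (264) (by norm_num) (by norm_num) (by omega) (by norm_num) (by norm_num) (by norm_num)
    (by positivity) (by positivity) (by positivity) (by norm_num) (by norm_num) (by norm_num) (by norm_num) (by norm_num)
    (by norm_num) ?_ ?_ ?_
  · push_cast; ring
  · push_cast; ring
  · push_cast; ring

/-- the family with base triangle `21, 13, 16` and lateral edges `n, n + (-3), n + (-11)`,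
`n = 5 * j ^ 2 + 4 * j + 16` -/
theorem fam_80_32 (j : ℕ) : IsIntTetVol (3 * ((80 * j + 32 : ℕ) : ℝ)) := by
  refine parab (80 * j + 32) 21 13 16 (5 * j ^ 2 + 4 * j + 16) (5 * j ^ 2 + 4 * j + 13) (5 * j ^ 2 + 4 * j + 5)
    3 12 4 (-3) (-11) 120 384 (1536) (by norm_num) (by norm_num) (by omega) (by norm_num) (by norm_num) (by norm_num)
    (by positivity) (by positivity) (by positivity) (by norm_num) (by norm_num) (by norm_num) (by norm_num) (by norm_num)
    (by norm_num) ?_ ?_ ?_
  · push_cast; ring
  · push_cast; ring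
  · push_cast; ring

/-- the family with base triangle `21, 13, 16` and lateral edges `n, n + (-3), n + (-11)`,
`n = 5 * j ^ 2 + 6 * j + 17` -/
theorem fam_80_48 (j : ℕ) : IsIntTetVol (3 * ((80 * j + 48 : ℕ) : ℝ)) := by
  refine parab (80 * j + 48) 21 13 16 (5 * j ^ 2 + 6 * j + 17) (5 * j ^ 2 + 6 * j + 14) (5 * j ^ 2 + 6 * j + 6)
    3 12 4 (-3) (-11) 120 384 (1536) (by norm_num) (by norm_num) (by omega) (by norm_num) (by norm_num) (by norm_num)
    (by positivity) (by positivity) (by positivity) (by norm_num) (by norm_num) (by norm_num) (by norm_num) (by norm_num)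
    (by norm_num) ?_ ?_ ?_
  · push_cast; ring
  · push_cast; ring
  · push_cast; ring

/-- the family with base triangle `24, 15, 15` and lateral edges `n, n + (0), n + (-9)`,
`n = 1 * j ^ 2 + 13` -/
theorem fam_48_0 (j : ℕ) (hj : 0 < j) : IsIntTetVol (3 * ((48 * j : ℕ) : ℝ)) := by
  refine parab (48 * j) 24 15 15 (1 * j ^ 2 + 13) (1 * j ^ 2 + 13) (1 * j ^ 2 + 4)
    1 24 12 (0) (-9) 216 3456 (5184) (by norm_num) (by norm_num) (by omega) (by norm_num) (by norm_num) (by norm_num)
    (by positivity) (by positivity) (by positivity) (by norm_num) (by norm_num) (by norm_num) (by norm_num) (by norm_num)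
    (by norm_num) ?_ ?_ ?_
  · push_cast; ring
  · push_cast; ring
  · push_cast; ring

/-- the family with base triangle `48, 12, 48` and lateral edges `n, n + (27), n + (-9)`,
`n = 10 * j ^ 2 + 8 * j + 17` -/
theorem fam_420_168 (j : ℕ) : IsIntTetVol (3 * ((420 * j + 168 : ℕ) : ℝ)) := by
  refine parab (420 * j + 168) 48 12 48 (10 * j ^ 2 + 8 * j + 17) (10 * j ^ 2 + 8 * j + 44) (10 * j ^ 2 + 8 * j + 8)
    7 15 3 (27) (-9) 216 540 (2268) (by norm_num) (by norm_num) (by omega) (by norm_num) (by norm_num) (by norm_num)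
    (by positivity) (by positivity) (by positivity) (by norm_num) (by norm_num) (by norm_num) (by norm_num) (by norm_num)
    (by norm_num) ?_ ?_ ?_
  · push_cast; ring
  · push_cast; ring
  · push_cast; ring

/-- the family with base triangle `48, 12, 48` and lateral edges `n, n + (27), n + (-9)`,
`n = 10 * j ^ 2 + 12 * j + 19` -/
theorem fam_420_252 (j : ℕ) : IsIntTetVol (3 * ((420 * j + 252 : ℕ) : ℝ)) := by
  refine parab (420 * j + 252) 48 12 48 (10 * j ^ 2 + 12 * j + 19) (10 * j ^ 2 + 12 * j + 46) (10 * j ^ 2 + 12 * j + 10)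
    7 15 3 (27) (-9) 216 540 (2268) (by norm_num) (by norm_num) (by omega) (by norm_num) (by norm_num) (by norm_num)
    (by positivity) (by positivity) (by positivity) (by norm_num) (by norm_num) (by norm_num) (by norm_num) (by norm_num)
    (by norm_num) ?_ ?_ ?_
  · push_cast; ring
  · push_cast; ring
  · push_cast; ring

/-- the family with base triangle `32, 32, 36` and lateral edges `n, n + (-4), n + (-31)`,
`n = 10 * j ^ 2 + 4 * j + 44` -/
theorem fam_420_84 (j : ℕ) : IsIntTetVol (3 * ((420 * j + 84 : ℕ) : ℝ)) := by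
  refine parab (420 * j + 84) 32 32 36 (10 * j ^ 2 + 4 * j + 44) (10 * j ^ 2 + 4 * j + 40) (10 * j ^ 2 + 4 * j + 13)
    7 12 3 (-4) (-31) 360 324 (4428) (by norm_num) (by norm_num) (by omega) (by norm_num) (by norm_num) (by norm_num)
    (by positivity) (by positivity) (by positivity) (by norm_num) (by norm_num) (by norm_num) (by norm_num) (by norm_num)
    (by norm_num) ?_ ?_ ?_
  · push_cast; ring
  · push_cast; ring
  · push_cast; ring

/-- the family with base triangle `32, 32, 36` and lateral edges `n, n + (-4), n + (-31)`,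
`n = 10 * j ^ 2 + 16 * j + 50` -/
theorem fam_420_336 (j : ℕ) : IsIntTetVol (3 * ((420 * j + 336 : ℕ) : ℝ)) := by
  refine parab (420 * j + 336) 32 32 36 (10 * j ^ 2 + 16 * j + 50) (10 * j ^ 2 + 16 * j + 46) (10 * j ^ 2 + 16 * j + 19)
    7 12 3 (-4) (-31) 360 324 (4428) (by norm_num) (by norm_num) (by omega) (by norm_num) (by norm_num) (by norm_num)
    (by positivity) (by positivity) (by positivity) (by norm_num) (by norm_num) (by norm_num) (by norm_num) (by norm_num)
    (by norm_num) ?_ ?_ ?_
  · push_cast; ring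
  · push_cast; ring
  · push_cast; ring

/-- the family with base triangle `48, 32, 32` and lateral edges `n, n + (-27), n + (-31)`,
`n = 10 * j ^ 2 + 6 * j + 58` -/
theorem fam_560_168 (j : ℕ) : IsIntTetVol (3 * ((560 * j + 168 : ℕ) : ℝ)) := by
  refine parab (560 * j + 168) 48 32 32 (10 * j ^ 2 + 6 * j + 58) (10 * j ^ 2 + 6 * j + 31) (10 * j ^ 2 + 6 * j + 27)
    7 15 3 (-27) (-31) 384 540 (6732) (by norm_num) (by norm_num) (by omega) (by norm_num) (by norm_num) (by norm_num)
    (by positivity) (by positivity) (by positivity) (by norm_num) (by norm_num) (by norm_num) (by norm_num) (by norm_num)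
    (by norm_num) ?_ ?_ ?_
  · push_cast; ring
  · push_cast; ring
  · push_cast; ring

/-- the family with base triangle `48, 32, 32` and lateral edges `n, n + (-27), n + (-31)`,
`n = 10 * j ^ 2 + 14 * j + 62` -/
theorem fam_560_392 (j : ℕ) : IsIntTetVol (3 * ((560 * j + 392 : ℕ) : ℝ)) := by
  refine parab (560 * j + 392) 48 32 32 (10 * j ^ 2 + 14 * j + 62) (10 * j ^ 2 + 14 * j + 35) (10 * j ^ 2 + 14 * j + 31)
    7 15 3 (-27) (-31) 384 540 (6732) (by norm_num) (by norm_num) (by omega) (by norm_num) (by norm_num) (by norm_num)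
    (by positivity) (by positivity) (by positivity) (by norm_num) (by norm_num) (by norm_num) (by norm_num) (by norm_num)
    (by norm_num) ?_ ?_ ?_
  · push_cast; ring
  · push_cast; ring
  · push_cast; ring

/-- the family with base triangle `42, 26, 32` and lateral edges `n, n + (-6), n + (-22)`,
`n = 10 * j ^ 2 + 8 * j + 32` -/
theorem fam_640_256 (j : ℕ) : IsIntTetVol (3 * ((640 * j + 256 : ℕ) : ℝ)) := by
  refine parab (640 * j + 256) 42 26 32 (10 * j ^ 2 + 8 * j + 32) (10 * j ^ 2 + 8 * j + 26) (10 * j ^ 2 + 8 * j + 10)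
    3 24 8 (-6) (-22) 480 3072 (12288) (by norm_num) (by norm_num) (by omega) (by norm_num) (by norm_num) (by norm_num)
    (by positivity) (by positivity) (by positivity) (by norm_num) (by norm_num) (by norm_num) (by norm_num) (by norm_num)
    (by norm_num) ?_ ?_ ?_
  · push_cast; ring
  · push_cast; ring
  · push_cast; ring

/-- the family with base triangle `42, 26, 32` and lateral edges `n, n + (-6), n + (-22)`,
`n = 10 * j ^ 2 + 12 * j + 34` -/
theorem fam_640_384 (j : ℕ) : IsIntTetVol (3 * ((640 * j + 384 : ℕ) : ℝ)) := by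
  refine parab (640 * j + 384) 42 26 32 (10 * j ^ 2 + 12 * j + 34) (10 * j ^ 2 + 12 * j + 28) (10 * j ^ 2 + 12 * j + 12)
    3 24 8 (-6) (-22) 480 3072 (12288) (by norm_num) (by norm_num) (by omega) (by norm_num) (by norm_num) (by norm_num)
    (by positivity) (by positivity) (by positivity) (by norm_num) (by norm_num) (by norm_num) (by norm_num) (by norm_num)
    (by norm_num) ?_ ?_ ?_
  · push_cast; ring
  · push_cast; ring
  · push_cast; ring

/-- the family with base triangle `48, 18, 42` and lateral edges `n, n + (24), n + (-9)`,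
`n = 30 * j ^ 2 + 6 * j + 15` -/
theorem fam_1080_108 (j : ℕ) : IsIntTetVol (3 * ((1080 * j + 108 : ℕ) : ℝ)) := by
  refine parab (1080 * j + 108) 48 18 42 (30 * j ^ 2 + 6 * j + 15) (30 * j ^ 2 + 6 * j + 39) (30 * j ^ 2 + 6 * j + 6)
    3 24 9 (24) (-9) 432 3240 (7128) (by norm_num) (by norm_num) (by omega) (by norm_num) (by norm_num) (by norm_num)
    (by positivity) (by positivity) (by positivity) (by norm_num) (by norm_num) (by norm_num) (by norm_num) (by norm_num)
    (by norm_num) ?_ ?_ ?_
  · push_cast; ring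
  · push_cast; ring
  · push_cast; ring

/-- the family with base triangle `48, 18, 42` and lateral edges `n, n + (24), n + (-9)`,
`n = 30 * j ^ 2 + 54 * j + 39` -/
theorem fam_1080_972 (j : ℕ) : IsIntTetVol (3 * ((1080 * j + 972 : ℕ) : ℝ)) := by
  refine parab (1080 * j + 972) 48 18 42 (30 * j ^ 2 + 54 * j + 39) (30 * j ^ 2 + 54 * j + 63) (30 * j ^ 2 + 54 * j + 30)
    3 24 9 (24) (-9) 432 3240 (7128) (by norm_num) (by norm_num) (by omega) (by norm_num) (by norm_num) (by norm_num)
    (by positivity) (by positivity) (by positivity) (by norm_num) (by norm_num) (by norm_num) (by norm_num) (by norm_num)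
    (by norm_num) ?_ ?_ ?_
  · push_cast; ring
  · push_cast; ring
  · push_cast; ring

/-- the family with base triangle `80, 18, 70` and lateral edges `n, n + (-8), n + (-15)`,
`n = 2 * j ^ 2 + 2 * j + 49` -/
theorem fam_616_308 (j : ℕ) : IsIntTetVol (3 * ((616 * j + 308 : ℕ) : ℝ)) := by
  refine parab (616 * j + 308) 80 18 70 (2 * j ^ 2 + 2 * j + 49) (2 * j ^ 2 + 2 * j + 41) (2 * j ^ 2 + 2 * j + 34)
    11 24 3 (-8) (-15) 336 1512 (8568) (by norm_num) (by norm_num) (by omega) (by norm_num) (by norm_num) (by norm_num)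
    (by positivity) (by positivity) (by positivity) (by norm_num) (by norm_num) (by norm_num) (by norm_num) (by norm_num)
    (by norm_num) ?_ ?_ ?_
  · push_cast; ring
  · push_cast; ring
  · push_cast; ring

/-- the family with base triangle `60, 28, 40` and lateral edges `n, n + (-12), n + (-20)`,
`n = 2 * j ^ 2 + 2 * j + 37` -/
theorem fam_512_256 (j : ℕ) : IsIntTetVol (3 * ((512 * j + 256 : ℕ) : ℝ)) := by
  refine parab (512 * j + 256) 60 28 40 (2 * j ^ 2 + 2 * j + 37) (2 * j ^ 2 + 2 * j + 25) (2 * j ^ 2 + 2 * j + 17)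
    6 24 8 (-12) (-20) 384 3072 (10752) (by norm_num) (by norm_num) (by omega) (by norm_num) (by norm_num) (by norm_num)
    (by positivity) (by positivity) (by positivity) (by norm_num) (by norm_num) (by norm_num) (by norm_num) (by norm_num)
    (by norm_num) ?_ ?_ ?_
  · push_cast; ring
  · push_cast; ring
  · push_cast; ring

end Pool.Agent.TetVol
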