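import Pool.Agent.TetVol.Tet

/-!
The tetrahedra of parabolic type.
-/

set_option autoImplicit false

open MeasureTheory

namespace Pool.Agent.TetVol

/-- `V` is the volume of an integer-edged tetrahedron: there are four affinely independent points of Euclidean
3-space, with pairwise distances positive integers, whose convex hull has Lebesgue measure `V`. -/
def IsIntTetVol (V : ℝ) : Prop :=
  ∃ P : Fin 4 → EuclideanSpace ℝ (Fin 3), AffineIndependent ℝ P ∧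
    (∀ i j : Fin 4, i ≠ j → ∃ n : ℕ, 0 < n ∧ dist (P i) (P j) = n) ∧
    volume (convexHull ℝ (Set.range P)) = ENNReal.ofReal V

theorem dist_of_sq {a b : Fin 3 → ℝ} {n : ℕ}
    (h : (a 0 - b 0) ^ 2 + (a 1 - b 1) ^ 2 + (a 2 - b 2) ^ 2 = (n : ℝ) ^ 2) :
    dist (WithLp.toLp 2 a : EuclideanSpace ℝ (Fin 3)) (WithLp.toLp 2 b) = n := by
  rw [EuclideanSpace.dist_eq, Fin.sum_univ_three]
  show Real.sqrt (dist (a 0) (b 0) ^ 2 + dist (a 1) (b 1) ^ 2 + dist (a 2) (b 2) ^ 2) = n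
  rw [Real.dist_eq, Real.dist_eq, Real.dist_eq, sq_abs, sq_abs, sq_abs, h]
  exact Real.sqrt_sq (Nat.cast_nonneg n)

/-- a tetrahedron with given coordinates -/
theorem tet_of_coords (a b c : Fin 3 → ℝ) (V : ℝ) (hV : 0 < V)
    (hd : (Matrix.of ![a, b, c]).det = 6 * V)
    (p q r n e f : ℕ) (p0 : 0 < p) (q0 : 0 < q) (r0 : 0 < r) (n0 : 0 < n) (e0 : 0 < e) (f0 : 0 < f)
    (h1 : a 0 ^ 2 + a 1 ^ 2 + a 2 ^ 2 = (p : ℝ) ^ 2)
    (h2 : b 0 ^ 2 + b 1 ^ 2 + b 2 ^ 2 = (q : ℝ) ^ 2)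
    (h3 : c 0 ^ 2 + c 1 ^ 2 + c 2 ^ 2 = (n : ℝ) ^ 2)
    (h4 : (a 0 - b 0) ^ 2 + (a 1 - b 1) ^ 2 + (a 2 - b 2) ^ 2 = (r : ℝ) ^ 2)
    (h5 : (a 0 - c 0) ^ 2 + (a 1 - c 1) ^ 2 + (a 2 - c 2) ^ 2 = (e : ℝ) ^ 2)
    (h6 : (b 0 - c 0) ^ 2 + (b 1 - c 1) ^ 2 + (b 2 - c 2) ^ 2 = (f : ℝ) ^ 2) : IsIntTetVol V := by
  have z : (0 : EuclideanSpace ℝ (Fin 3)) = WithLp.toLp 2 (0 : Fin 3 → ℝ) := rfl
  have d1 : dist (0 : EuclideanSpace ℝ (Fin 3)) (WithLp.toLp 2 a) = p := by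
    rw [z]; apply dist_of_sq; simp only [Pi.zero_apply]; rw [← h1]; ring
  have d2 : dist (0 : EuclideanSpace ℝ (Fin 3)) (WithLp.toLp 2 b) = q := by
    rw [z]; apply dist_of_sq; simp only [Pi.zero_apply]; rw [← h2]; ring
  have d3 : dist (0 : EuclideanSpace ℝ (Fin 3)) (WithLp.toLp 2 c) = n := by
    rw [z]; apply dist_of_sq; simp only [Pi.zero_apply]; rw [← h3]; ring
  have d4 : dist (WithLp.toLp 2 a : EuclideanSpace ℝ (Fin 3)) (WithLp.toLp 2 b) = r := dist_of_sq h4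
  have d5 : dist (WithLp.toLp 2 a : EuclideanSpace ℝ (Fin 3)) (WithLp.toLp 2 c) = e := dist_of_sq h5
  have d6 : dist (WithLp.toLp 2 b : EuclideanSpace ℝ (Fin 3)) (WithLp.toLp 2 c) = f := dist_of_sq h6
  refine ⟨![0, WithLp.toLp 2 a, WithLp.toLp 2 b, WithLp.toLp 2 c], ?_, ?_, ?_⟩
  · apply eu_ind
    rw [hd]
    positivity
  · intro i j hij
    fin_cases i <;> fin_cases j
    · exact absurd rfl hij
    · exact ⟨p, p0, d1⟩
    · exact ⟨q, q0, d2⟩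
    · exact ⟨n, n0, d3⟩
    · exact ⟨p, p0, (dist_comm _ _).trans d1⟩
    · exact absurd rfl hij
    · exact ⟨r, r0, d4⟩
    · exact ⟨e, e0, d5⟩
    · exact ⟨q, q0, (dist_comm _ _).trans d2⟩
    · exact ⟨r, r0, (dist_comm _ _).trans d4⟩
    · exact absurd rfl hij
    · exact ⟨f, f0, d6⟩
    · exact ⟨n, n0, (dist_comm _ _).trans d3⟩
    · exact ⟨e, e0, (dist_comm _ _).trans d5⟩
    · exact ⟨f, f0, (dist_comm _ _).trans d6⟩
    · exact absurd rfl hij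
  · have e1 : Set.range ![(0 : EuclideanSpace ℝ (Fin 3)), WithLp.toLp 2 a, WithLp.toLp 2 b, WithLp.toLp 2 c] =
        {(0 : EuclideanSpace ℝ (Fin 3)), WithLp.toLp 2 a, WithLp.toLp 2 b, WithLp.toLp 2 c} := by
      ext x
      constructor
      · rintro ⟨i, rfl⟩
        fin_cases i <;> simp
      · rintro (rfl | rfl | rfl | rfl)
        · exact ⟨0, rfl⟩
        · exact ⟨1, rfl⟩
        · exact ⟨2, rfl⟩
        · exact ⟨3, rfl⟩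
    rw [e1, eu_tet, hd, abs_of_pos (by positivity)]
    congr 1
    ring

theorem parab (m p q r n e f : ℕ) (δ k1 k2 β γ κ Y X : ℝ) (hδ : 0 < δ) (κ0 : 0 < κ) (m0 : 0 < m)
    (p0 : 0 < p) (q0 : 0 < q) (r0 : 0 < r) (n0 : 0 < n) (e0 : 0 < e) (f0 : 0 < f)
    (hκ : κ = β * k2 - γ * k1) (hY : Y = k1 * k2 * (k1 - k2)) (hX : X = β * k2 ^ 2 - γ * k1 ^ 2)
    (hp : (p : ℝ) ^ 2 = β ^ 2 + δ * k1 ^ 2) (hq : (q : ℝ) ^ 2 = γ ^ 2 + δ * k2 ^ 2)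
    (hr : (r : ℝ) ^ 2 = (β - γ) ^ 2 + δ * (k1 - k2) ^ 2)
    (he : (e : ℝ) = n + β) (hf : (f : ℝ) = n + γ)
    (hn : (n : ℝ) * (4 * κ * Y * δ ^ 2) = (X ^ 2 + δ * Y ^ 2) * δ ^ 2 + (36 * m) ^ 2) :
    IsIntTetVol (3 * m) := by
  obtain ⟨s, s0, hs⟩ : ∃ s : ℝ, 0 < s ∧ s ^ 2 = δ := ⟨Real.sqrt δ, Real.sqrt_pos.mpr hδ, Real.sq_sqrt hδ.le⟩
  have m0' : (0 : ℝ) < m := by exact_mod_cast m0
  set h : ℝ := 18 * m / (κ * s) with hh
  set y : ℝ := s * X / (2 * κ) with hy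
  set x : ℝ := δ * Y / (2 * κ) - n with hx
  have hκ' := κ0.ne'
  have hs' := s0.ne'
  have eh : h * (κ * s) = 18 * m := by rw [hh]; field_simp
  have ey : y * (2 * κ) = s * X := by rw [hy]; field_simp
  have ex : (x + n) * (2 * κ) = δ * Y := by rw [hx]; field_simp; ring
  have hδ' := hδ.ne'
  have k4 : (4 * κ ^ 2 * δ) ≠ 0 := by positivity
  -- the distance to the origin
  have D3 : x ^ 2 + y ^ 2 + h ^ 2 = (n : ℝ) ^ 2 := by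
    have g : (x ^ 2 + y ^ 2 + h ^ 2 - (n : ℝ) ^ 2) * (4 * κ ^ 2 * δ) = 0 := by
      have e2 : y ^ 2 * (4 * κ ^ 2) = δ * X ^ 2 := by
        have : y ^ 2 * (4 * κ ^ 2) = (y * (2 * κ)) ^ 2 := by ring
        rw [this, ey, mul_pow, hs]
      have e3 : h ^ 2 * (κ ^ 2 * δ) = (18 * m) ^ 2 := by
        rw [← eh, ← hs]; ring
      have e4 : (x ^ 2 - (n : ℝ) ^ 2) * (4 * κ ^ 2) = δ * Y * (δ * Y - 4 * κ * n) := by
        have : (x ^ 2 - (n : ℝ) ^ 2) * (4 * κ ^ 2) = ((x + n) * (2 * κ)) * ((x + n) * (2 * κ) - 4 * κ * n) := by ring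
        rw [this, ex]
      have e5 : (x ^ 2 + y ^ 2 + h ^ 2 - (n : ℝ) ^ 2) * (4 * κ ^ 2 * δ) =
          (x ^ 2 - (n : ℝ) ^ 2) * (4 * κ ^ 2) * δ + y ^ 2 * (4 * κ ^ 2) * δ + 4 * (h ^ 2 * (κ ^ 2 * δ)) := by ring
      rw [e5, e4, e2, e3]
      linear_combination (-1 : ℝ) * hn
    have := (mul_eq_zero.mp g).resolve_right k4
    linarith
  have D5 : (β - x) ^ 2 + (k1 * s - y) ^ 2 + (0 - h) ^ 2 = (e : ℝ) ^ 2 := by
    have g : (2 * κ) * (-2 * β * (x + n) - 2 * (k1 * s) * y + k1 ^ 2 * δ) = 0 := by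
      have e1 : (2 * κ) * (-2 * β * (x + n) - 2 * (k1 * s) * y + k1 ^ 2 * δ) =
        -2 * β * ((x + n) * (2 * κ)) - 2 * k1 * s * (y * (2 * κ)) + 2 * κ * k1 ^ 2 * δ := by ring
      rw [e1, ex, ey, hY, hX, hκ]
      have e2 : -2 * β * (δ * (k1 * k2 * (k1 - k2))) - 2 * k1 * s * (s * (β * k2 ^ 2 - γ * k1 ^ 2)) +
        2 * (β * k2 - γ * k1) * k1 ^ 2 * δ = -2 * β * (δ * (k1 * k2 * (k1 - k2))) -
        2 * k1 * (s ^ 2) * (β * k2 ^ 2 - γ * k1 ^ 2) + 2 * (β * k2 - γ * k1) * k1 ^ 2 * δ := by ring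
      rw [e2, hs]
      ring
    have g' := (mul_eq_zero.mp g).resolve_left (by positivity)
    rw [he]
    have e3 : (k1 * s) ^ 2 = k1 ^ 2 * δ := by rw [mul_pow, hs]
    linear_combination D3 + g' + e3
  have D6 : (γ - x) ^ 2 + (k2 * s - y) ^ 2 + (0 - h) ^ 2 = (f : ℝ) ^ 2 := by
    have g : (2 * κ) * (-2 * γ * (x + n) - 2 * (k2 * s) * y + k2 ^ 2 * δ) = 0 := by
      have e1 : (2 * κ) * (-2 * γ * (x + n) - 2 * (k2 * s) * y + k2 ^ 2 * δ) =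
        -2 * γ * ((x + n) * (2 * κ)) - 2 * k2 * s * (y * (2 * κ)) + 2 * κ * k2 ^ 2 * δ := by ring
      rw [e1, ex, ey, hY, hX, hκ]
      have e2 : -2 * γ * (δ * (k1 * k2 * (k1 - k2))) - 2 * k2 * s * (s * (β * k2 ^ 2 - γ * k1 ^ 2)) +
        2 * (β * k2 - γ * k1) * k2 ^ 2 * δ = -2 * γ * (δ * (k1 * k2 * (k1 - k2))) -
        2 * k2 * (s ^ 2) * (β * k2 ^ 2 - γ * k1 ^ 2) + 2 * (β * k2 - γ * k1) * k2 ^ 2 * δ := by ring
      rw [e2, hs]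
      ring
    have g' := (mul_eq_zero.mp g).resolve_left (by positivity)
    rw [hf]
    have e3 : (k2 * s) ^ 2 = k2 ^ 2 * δ := by rw [mul_pow, hs]
    linear_combination D3 + g' + e3
  refine tet_of_coords ![β, k1 * s, 0] ![γ, k2 * s, 0] ![x, y, h] (3 * m) (by positivity) ?_
    p q r n e f p0 q0 r0 n0 e0 f0 ?_ ?_ D3 ?_ D5 D6
  · rw [Matrix.det_fin_three]
    show β * (k2 * s) * h - β * 0 * y - k1 * s * γ * h + k1 * s * 0 * x + 0 * γ * y - 0 * (k2 * s) * x = 6 * (3 * m)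
    have : (6 : ℝ) * (3 * m) = 18 * m := by ring
    rw [this, ← eh, hκ]
    ring
  · show β ^ 2 + (k1 * s) ^ 2 + (0 : ℝ) ^ 2 = _
    rw [hp, mul_pow, hs]; ring
  · show γ ^ 2 + (k2 * s) ^ 2 + (0 : ℝ) ^ 2 = _
    rw [hq, mul_pow, hs]; ring
  · show (β - γ) ^ 2 + (k1 * s - k2 * s) ^ 2 + ((0 : ℝ) - 0) ^ 2 = _
    rw [hr]
    have : (k1 * s - k2 * s) ^ 2 = (k1 - k2) ^ 2 * s ^ 2 := by ring
    rw [this, hs]; ring

end Pool.Agent.TetVol
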