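import Pool.Agent.TetVol.Fams

/-!
Homotheties.
-/

set_option autoImplicit false

open MeasureTheory Pointwise

namespace Pool.Agent.TetVol

theorem scale {V : ℝ} (h : IsIntTetVol V) (k : ℕ) (hk : 0 < k) : IsIntTetVol ((k : ℝ) ^ 3 * V) := by
  obtain ⟨P, h1, h2, h3⟩ := h
  have hk' : (0 : ℝ) < k := by exact_mod_cast hk
  refine ⟨fun i => (k : ℝ) • P i, ?_, ?_, ?_⟩
  · have h4 := h1.map' (((k : ℝ) • LinearMap.id : EuclideanSpace ℝ (Fin 3) →ₗ[ℝ] EuclideanSpace ℝ (Fin 3))).toAffineMap
      (by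
        intro x y hxy
        have : (k : ℝ) • x = (k : ℝ) • y := hxy
        exact smul_right_injective _ hk'.ne' this)
    exact h4
  · intro i j hij
    obtain ⟨n, n0, hn⟩ := h2 i j hij
    refine ⟨k * n, by positivity, ?_⟩
    rw [dist_smul₀, hn, Real.norm_of_nonneg hk'.le]
    push_cast
    ring
  · have h5 : Set.range (fun i => (k : ℝ) • P i) = (k : ℝ) • Set.range P := by
      ext x
      simp [Set.mem_smul_set]
    rw [h5, convexHull_smul, Measure.addHaar_smul, h3, ← ENNReal.ofReal_mul (abs_nonneg _)]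
    congr 1
    rw [finrank_euclideanSpace_fin, abs_of_pos (by positivity)]

end Pool.Agent.TetVol
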