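import Pool.Agent.TetVol.Vol

/-!
The volume of the tetrahedron with vertices `0, a, b, c` in Euclidean space.
-/

set_option autoImplicit false

open MeasureTheory

namespace Pool.Agent.TetVol

theorem pi_tet (a b c : Fin 3 → ℝ) :
    volume (convexHull ℝ {(0 : Fin 3 → ℝ), a, b, c}) =
      ENNReal.ofReal (|(Matrix.of ![a, b, c]).det| / 6) := by
  set M : Matrix (Fin 3) (Fin 3) ℝ := (Matrix.of ![a, b, c]).transpose with hM
  set L := Matrix.toLin' M with hL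
  have h0 : ∀ i : Fin 3, L (Pi.single i 1) = ![a, b, c] i := by
    intro i
    rw [hL, Matrix.toLin'_apply, Matrix.mulVec_single_one]
    rfl
  have h1 : convexHull ℝ {(0 : Fin 3 → ℝ), a, b, c} = L '' cor := by
    rw [← cor_hull, L.image_convexHull]
    congr 1
    rw [Set.image_insert_eq, Set.image_insert_eq, Set.image_insert_eq, Set.image_singleton, h0, h0, h0, map_zero]
    rfl
  rw [h1, Measure.addHaar_image_linearMap, cor_vol, hL, LinearMap.det_toLin', hM, Matrix.det_transpose,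
    ← ENNReal.ofReal_mul (abs_nonneg _)]
  congr 1
  ring

theorem eu_tet (a b c : Fin 3 → ℝ) :
    volume (convexHull ℝ {(0 : EuclideanSpace ℝ (Fin 3)), WithLp.toLp 2 a, WithLp.toLp 2 b, WithLp.toLp 2 c}) =
      ENNReal.ofReal (|(Matrix.of ![a, b, c]).det| / 6) := by
  rw [← pi_tet a b c]
  have h1 : convexHull ℝ {(0 : EuclideanSpace ℝ (Fin 3)), WithLp.toLp 2 a, WithLp.toLp 2 b, WithLp.toLp 2 c} =
      (fun x : EuclideanSpace ℝ (Fin 3) => WithLp.ofLp x) ⁻¹' (convexHull ℝ {(0 : Fin 3 → ℝ), a, b, c}) := by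
    have h2 := (WithLp.linearEquiv 2 ℝ (Fin 3 → ℝ)).symm.toLinearMap.image_convexHull
      ({(0 : Fin 3 → ℝ), a, b, c} : Set (Fin 3 → ℝ))
    rw [Set.image_insert_eq, Set.image_insert_eq, Set.image_insert_eq, Set.image_singleton, map_zero] at h2
    have h3 : (convexHull ℝ {(0 : EuclideanSpace ℝ (Fin 3)), WithLp.toLp 2 a, WithLp.toLp 2 b, WithLp.toLp 2 c}) =
      (WithLp.linearEquiv 2 ℝ (Fin 3 → ℝ)).symm.toLinearMap '' (convexHull ℝ {(0 : Fin 3 → ℝ), a, b, c}) := h2.symm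
    rw [h3]
    ext x
    constructor
    · rintro ⟨y, hy, rfl⟩
      exact hy
    · intro hx
      exact ⟨WithLp.ofLp x, hx, rfl⟩
  rw [h1]
  have h4 := PiLp.volume_preserving_ofLp (Fin 3)
  refine h4.measure_preimage ?_
  have h5 : ({(0 : Fin 3 → ℝ), a, b, c} : Set (Fin 3 → ℝ)).Finite := by
    simp
  exact (h5.isCompact_convexHull (𝕜 := ℝ)).measurableSet.nullMeasurableSet

/-- affine independence of `0, a, b, c` -/
theorem eu_ind (a b c : Fin 3 → ℝ) (h : (Matrix.of ![a, b, c]).det ≠ 0) :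
    AffineIndependent ℝ ![(0 : EuclideanSpace ℝ (Fin 3)), WithLp.toLp 2 a, WithLp.toLp 2 b, WithLp.toLp 2 c] := by
  have h1 : LinearIndependent ℝ (Matrix.of ![a, b, c]).row :=
    Matrix.linearIndependent_rows_of_det_ne_zero h
  have h2 := h1.map' (WithLp.linearEquiv 2 ℝ (Fin 3 → ℝ)).symm.toLinearMap
    (LinearMap.ker_eq_bot.mpr (WithLp.linearEquiv 2 ℝ (Fin 3 → ℝ)).symm.injective)
  rw [affineIndependent_iff_linearIndependent_vsub ℝ _ (0 : Fin 4)]
  have h3 := (linearIndependent_equiv (R := ℝ) (finSuccAboveEquiv (0 : Fin 4))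
    (f := fun i : {x : Fin 4 // x ≠ 0} => (![(0 : EuclideanSpace ℝ (Fin 3)), WithLp.toLp 2 a, WithLp.toLp 2 b,
      WithLp.toLp 2 c] i -ᵥ ![(0 : EuclideanSpace ℝ (Fin 3)), WithLp.toLp 2 a, WithLp.toLp 2 b,
      WithLp.toLp 2 c] 0 : EuclideanSpace ℝ (Fin 3)))).mp
  apply h3
  have h4 : ((fun i : {x : Fin 4 // x ≠ 0} => (![(0 : EuclideanSpace ℝ (Fin 3)), WithLp.toLp 2 a, WithLp.toLp 2 b,
      WithLp.toLp 2 c] i -ᵥ ![(0 : EuclideanSpace ℝ (Fin 3)), WithLp.toLp 2 a, WithLp.toLp 2 b,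
      WithLp.toLp 2 c] 0 : EuclideanSpace ℝ (Fin 3))) ∘ (finSuccAboveEquiv (0 : Fin 4))) =
      ((WithLp.linearEquiv 2 ℝ (Fin 3 → ℝ)).symm.toLinearMap ∘ (Matrix.of ![a, b, c]).row) := by
    funext i
    fin_cases i
    · show (WithLp.toLp 2 a : EuclideanSpace ℝ (Fin 3)) - 0 = WithLp.toLp 2 a
      rw [sub_zero]
    · show (WithLp.toLp 2 b : EuclideanSpace ℝ (Fin 3)) - 0 = WithLp.toLp 2 b
      rw [sub_zero]
    · show (WithLp.toLp 2 c : EuclideanSpace ℝ (Fin 3)) - 0 = WithLp.toLp 2 c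
      rw [sub_zero]
  rw [h4]
  exact h2

end Pool.Agent.TetVol
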