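import Mathlib

/-!
The volume of a tetrahedron with one vertex at the origin: one sixth of the absolute value of the determinant.
-/

set_option autoImplicit false

open MeasureTheory

namespace Pool.Agent.TetVol

/-- reflection in the coordinate `i` -/
def refl (i : Fin 3) (x : Fin 3 → ℝ) : Fin 3 → ℝ := fun j => if j = i then -x j else x j

theorem refl_mp (i : Fin 3) : MeasurePreserving (refl i) volume volume := by
  have h := volume_preserving_pi (ι := Fin 3) (α' := fun _ => ℝ) (β' := fun _ => ℝ)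
    (f := fun j => if j = i then (fun t : ℝ => -t) else (fun t : ℝ => t)) (fun j => by
      by_cases hj : j = i
      · rw [if_pos hj]; exact Measure.measurePreserving_neg volume
      · rw [if_neg hj]; exact MeasurePreserving.id volume)
  have e : refl i = fun (a : Fin 3 → ℝ) (j : Fin 3) =>
      (if j = i then (fun t : ℝ => -t) else (fun t : ℝ => t)) (a j) := by
    funext a j
    unfold refl
    by_cases hj : j = i
    · rw [if_pos hj, if_pos hj]
    · rw [if_neg hj, if_neg hj]
  rw [e]
  exact h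

theorem half {A : Set (Fin 3 → ℝ)} (hA : MeasurableSet A) (i : Fin 3) (hs : ∀ x, refl i x ∈ A ↔ x ∈ A) :
    volume A = 2 * volume (A ∩ {x | 0 < x i}) := by
  have hp : MeasurableSet {x : Fin 3 → ℝ | 0 < x i} := measurableSet_lt measurable_const (measurable_pi_apply i)
  have hn : MeasurableSet {x : Fin 3 → ℝ | x i < 0} := measurableSet_lt (measurable_pi_apply i) measurable_const
  have h0 : volume {x : Fin 3 → ℝ | x i = 0} = 0 := Measure.pi_hyperplane (fun _ : Fin 3 => (volume : Measure ℝ)) i 0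
  have h1 : volume (A ∩ {x | x i < 0}) = volume (A ∩ {x | 0 < x i}) := by
    have h2 := (refl_mp i).measure_preimage ((hA.inter hp).nullMeasurableSet)
    rw [← h2]
    congr 1
    ext x
    simp only [Set.mem_inter_iff, Set.mem_preimage, Set.mem_ofPred_eq, hs]
    have : refl i x i = - x i := by unfold refl; rw [if_pos rfl]
    rw [this, neg_pos]
  have h3 : A = (A ∩ {x | 0 < x i}) ∪ ((A ∩ {x | x i < 0}) ∪ (A ∩ {x | x i = 0})) := by
    ext x
    simp only [Set.mem_union, Set.mem_inter_iff, Set.mem_ofPred_eq]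
    rcases lt_trichotomy (x i) 0 with h | h | h
    · constructor
      · intro hx; exact Or.inr (Or.inl ⟨hx, h⟩)
      · rintro (hx | hx | hx) <;> exact hx.1
    · constructor
      · intro hx; exact Or.inr (Or.inr ⟨hx, h⟩)
      · rintro (hx | hx | hx) <;> exact hx.1
    · constructor
      · intro hx; exact Or.inl ⟨hx, h⟩
      · rintro (hx | hx | hx) <;> exact hx.1
  have h4 : volume (A ∩ {x | x i = 0}) = 0 := measure_mono_null Set.inter_subset_right h0
  have h5 : volume ((A ∩ {x | x i < 0}) ∪ (A ∩ {x | x i = 0})) = volume (A ∩ {x | x i < 0}) := by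
    apply le_antisymm
    · refine (measure_union_le _ _).trans ?_
      rw [h4, add_zero]
    · exact measure_mono Set.subset_union_left
  have h6 : Disjoint (A ∩ {x | 0 < x i}) ((A ∩ {x | x i < 0}) ∪ (A ∩ {x | x i = 0})) := by
    rw [Set.disjoint_left]
    rintro x ⟨_, h7⟩ (⟨_, h8⟩ | ⟨_, h8⟩)
    · have h9 : x i < 0 := h8
      have h10 : 0 < x i := h7
      exact lt_asymm h10 h9
    · have h9 : x i = 0 := h8
      have h10 : 0 < x i := h7
      rw [h9] at h10
      exact lt_irrefl _ h10
  conv_lhs => rw [h3]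
  rw [measure_union' h6 (hA.inter hp), h5, h1, two_mul]

/-- the octahedron -/
def oct : Set (Fin 3 → ℝ) := {x | |x 0| + |x 1| + |x 2| ≤ 1}

/-- the corner simplex -/
def cor : Set (Fin 3 → ℝ) := {x | 0 ≤ x 0 ∧ 0 ≤ x 1 ∧ 0 ≤ x 2 ∧ x 0 + x 1 + x 2 ≤ 1}

theorem oct_vol : volume oct = ENNReal.ofReal (4 / 3) := by
  have h := volume_sum_rpow_le (Fin 3) (p := 1) le_rfl 1
  have e : {x : Fin 3 → ℝ | (∑ i, |x i| ^ (1:ℝ)) ^ (1 / (1:ℝ)) ≤ 1} = oct := by
    ext x
    simp only [Set.mem_ofPred_eq, Real.rpow_one, div_one, Fin.sum_univ_three, oct]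
  rw [e] at h
  rw [h, Fintype.card_fin, ENNReal.ofReal_one, one_pow, one_mul]
  congr 1
  have g1 : Real.Gamma (1 / 1 + 1) = 1 := by
    rw [div_one]
    have := Real.Gamma_nat_eq_factorial 1
    rw [Nat.cast_one] at this
    rw [this]
    norm_num [Nat.factorial]
  have g2 : Real.Gamma (((3:ℕ):ℝ) / 1 + 1) = 6 := by
    rw [div_one]
    have := Real.Gamma_nat_eq_factorial 3
    rw [this]
    norm_num [Nat.factorial]
  rw [g1, g2]
  norm_num

theorem oct_meas : MeasurableSet oct := by
  unfold oct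
  refine measurableSet_le ?_ measurable_const
  exact ((continuous_apply 0).abs.add (continuous_apply 1).abs).add (continuous_apply 2).abs |>.measurable

theorem pos_meas (i : Fin 3) : MeasurableSet {x : Fin 3 → ℝ | 0 < x i} :=
  measurableSet_lt measurable_const (measurable_pi_apply i)

theorem refl_oct (i : Fin 3) (x : Fin 3 → ℝ) : refl i x ∈ oct ↔ x ∈ oct := by
  unfold oct refl
  fin_cases i <;> simp

theorem refl_pos {i j : Fin 3} (h : i ≠ j) (x : Fin 3 → ℝ) : refl i x ∈ {x : Fin 3 → ℝ | 0 < x j} ↔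
    x ∈ {x : Fin 3 → ℝ | 0 < x j} := by
  unfold refl
  simp only [Set.mem_ofPred_eq, if_neg h.symm]

theorem cor_vol : volume cor = ENNReal.ofReal (1 / 6) := by
  have h1 := half oct_meas 0 (refl_oct 0)
  have h2 := half (oct_meas.inter (pos_meas 0)) 1 (fun x => by
    rw [Set.mem_inter_iff, Set.mem_inter_iff, refl_oct, refl_pos (by decide)])
  have h3 := half ((oct_meas.inter (pos_meas 0)).inter (pos_meas 1)) 2 (fun x => by
    rw [Set.mem_inter_iff, Set.mem_inter_iff, Set.mem_inter_iff, Set.mem_inter_iff, refl_oct, refl_pos (by decide),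
      refl_pos (by decide)])
  have h4 : volume cor = volume (((oct ∩ {x | 0 < x 0}) ∩ {x | 0 < x 1}) ∩ {x | 0 < x 2}) := by
    apply le_antisymm
    · have h5 : cor ⊆ (((oct ∩ {x | 0 < x 0}) ∩ {x | 0 < x 1}) ∩ {x | 0 < x 2}) ∪
          ({x : Fin 3 → ℝ | x 0 = 0} ∪ ({x : Fin 3 → ℝ | x 1 = 0} ∪ {x : Fin 3 → ℝ | x 2 = 0})) := by
        rintro x ⟨a, b, c, d⟩
        rcases a.lt_or_eq with a' | a'
        · rcases b.lt_or_eq with b' | b'
          · rcases c.lt_or_eq with c' | c'
            · left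
              refine ⟨⟨⟨?_, a'⟩, b'⟩, c'⟩
              show |x 0| + |x 1| + |x 2| ≤ 1
              rw [abs_of_nonneg a, abs_of_nonneg b, abs_of_nonneg c]
              exact d
            · right; right; right; exact c'.symm
          · right; right; left; exact b'.symm
        · right; left; exact a'.symm
      have h0 : ∀ i : Fin 3, volume {x : Fin 3 → ℝ | x i = 0} = 0 :=
        fun i => Measure.pi_hyperplane (fun _ : Fin 3 => (volume : Measure ℝ)) i 0
      refine (measure_mono h5).trans ((measure_union_le _ _).trans ?_)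
      have h6 : volume ({x : Fin 3 → ℝ | x 0 = 0} ∪ ({x : Fin 3 → ℝ | x 1 = 0} ∪ {x : Fin 3 → ℝ | x 2 = 0})) = 0 :=
        measure_union_null (h0 0) (measure_union_null (h0 1) (h0 2))
      rw [h6, add_zero]
    · refine measure_mono ?_
      rintro x ⟨⟨⟨a, b⟩, c⟩, d⟩
      have b' : 0 < x 0 := b
      have c' : 0 < x 1 := c
      have d' : 0 < x 2 := d
      have a' : |x 0| + |x 1| + |x 2| ≤ 1 := a
      rw [abs_of_pos b', abs_of_pos c', abs_of_pos d'] at a'
      exact ⟨b'.le, c'.le, d'.le, a'⟩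
  rw [h4]
  rw [oct_vol, h2, h3] at h1
  set v := volume (((oct ∩ {x | 0 < x 0}) ∩ {x | 0 < x 1}) ∩ {x | 0 < x 2}) with hv
  have h7 : ENNReal.ofReal (4 / 3) = 8 * v := by
    rw [h1, ← mul_assoc, ← mul_assoc]
    norm_num
  have h8 : v ≠ ⊤ := by
    intro h9
    rw [h9] at h7
    rw [ENNReal.mul_top (by norm_num)] at h7
    exact ENNReal.ofReal_ne_top h7
  have h10 := congrArg ENNReal.toReal h7
  rw [ENNReal.toReal_ofReal (by norm_num), ENNReal.toReal_mul] at h10
  rw [← ENNReal.ofReal_toReal h8]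
  congr 1
  have h11 : (8 : ENNReal).toReal = 8 := by norm_num
  rw [h11] at h10
  linarith

theorem cor_hull : convexHull ℝ {(0 : Fin 3 → ℝ), Pi.single 0 1, Pi.single 1 1, Pi.single 2 1} = cor := by
  apply Set.Subset.antisymm
  · apply convexHull_min
    · rintro x (rfl | rfl | rfl | rfl) <;> simp [cor, Pi.single_apply]
    · intro x hx y hy a b ha hb hab
      obtain ⟨x0, x1, x2, xs⟩ := hx
      obtain ⟨y0, y1, y2, ys⟩ := hy
      refine ⟨?_, ?_, ?_, ?_⟩ <;> simp only [Pi.add_apply, Pi.smul_apply, smul_eq_mul]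
      · positivity
      · positivity
      · positivity
      · nlinarith
  · rintro x ⟨x0, x1, x2, xs⟩
    have hc := convex_convexHull ℝ ({(0 : Fin 3 → ℝ), Pi.single 0 1, Pi.single 1 1, Pi.single 2 1} : Set (Fin 3 → ℝ))
    have hsub := subset_convexHull ℝ ({(0 : Fin 3 → ℝ), Pi.single 0 1, Pi.single 1 1, Pi.single 2 1} : Set (Fin 3 → ℝ))
    have h := hc.sum_mem (t := Finset.univ) (w := ![1 - (x 0 + x 1 + x 2), x 0, x 1, x 2])
      (z := ![(0 : Fin 3 → ℝ), Pi.single 0 1, Pi.single 1 1, Pi.single 2 1])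
      (by
        intro i _
        fin_cases i
        · show 0 ≤ 1 - (x 0 + x 1 + x 2); linarith
        · exact x0
        · exact x1
        · exact x2)
      (by
        rw [Fin.sum_univ_four]
        show (1 - (x 0 + x 1 + x 2)) + x 0 + x 1 + x 2 = 1
        ring)
      (by
        intro i _
        apply hsub
        fin_cases i
        · show (0 : Fin 3 → ℝ) ∈ _; simp
        · show (Pi.single 0 1 : Fin 3 → ℝ) ∈ _; simp
        · show (Pi.single 1 1 : Fin 3 → ℝ) ∈ _; simp
        · show (Pi.single 2 1 : Fin 3 → ℝ) ∈ _; simp)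
    rw [Fin.sum_univ_four] at h
    have e : x = (1 - (x 0 + x 1 + x 2)) • (0 : Fin 3 → ℝ) + x 0 • Pi.single 0 1 + x 1 • Pi.single 1 1 +
        x 2 • Pi.single 2 1 := by
      funext i
      fin_cases i <;> simp
    rw [e]
    exact h

end Pool.Agent.TetVol
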